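import Pool.Agent.H90.EH.Targets

/-!
# Row HOU: the half-open cones are disjoint
-/

set_option autoImplicit false

namespace Pool.Agent.H6.EH

open Pool.Agent.H90.EH Finset
open scoped Classical

theorem pf_HOU (h1 : T_LPU) (h2 : T_SGN) : T_HOU := by
  intro V _ _ A w q y B B' hq hB hB' hy hy'
  have hT : ∀ C, C ∈ Tri A w → IsB A C := by
    intro C hC
    unfold Tri at hC
    rw [Finset.mem_filter] at hC
    exact hC.2.1
  have hb : IsB A B := hT B hB
  have hb' : IsB A B' := hT B' hB'
  have hyA : y ∈ Sp A := by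
    rw [hb.sp]
    exact hy.1
  obtain ⟨e0, he0, h⟩ := h2 V A y q hyA hq
  have he : 0 < e0 / 2 := by linarith
  have he' : e0 / 2 < e0 := by linarith
  have hz : y + (e0 / 2) • q ∈ Sp A :=
    Submodule.add_mem _ hyA (Submodule.smul_mem _ _ hq.1)
  exact h1 V A w (y + (e0 / 2) • q) B B' hz hB hB' ((h _ he he' B hb).2 hy)
    ((h _ he he' B' hb').2 hy')

end Pool.Agent.H6.EH
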